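import Pool.Agent.Run7.h323.BT.Fin

/-!
# The rank conjecture in infinite non-abelian towers over imaginary quadratic fields

`K` is an imaginary quadratic field of class number one, `E : y² = x³ + a x + b` is an elliptic curve over `K`
(not necessarily a base change), `f` is its Bianchi newform, `E(K)[2] = 0`, the `2`-Selmer group of `E/K` is trivial,
and `L(E/K, 1) ≠ 0`.  A prime number `q ≠ 2` is admissible if it splits in `K`, the places `v` of `K` above `q` do not
divide `2(4a³ + 27b²)` and the level, and `x³ + a x + b` has no root modulo these `v`, that is, `#E(𝓞/v)` is odd.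

Theorem: there are infinitely many admissible primes, and for every infinite set `Q` of admissible primes and every
`m ≠ 0` there is an infinite extension `M/K` such that the rank conjecture of Birch and Swinnerton-Dyer holds, with both
sides zero, for `E` over ALL number fields `F` with `K ⊆ F ⊂ M`: `E(F)` is finite (of odd order), the function `L(E/F, s)`
is entire, and `L(E/F, 1) ≠ 0`.  Moreover `Ш(E/F)[2^∞] = 0`.  The field `M` is generated over `K` by the square roots of
squarefree numbers `D ≡ 1 (mod m)` whose prime divisors are above `Q`; the places of `K` dividing `2(4a³ + 27b²) m` split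
completely in `M`; `M` is a Galois extension of `ℚ`, and `Gal(M/ℚ)` is not commutative: `M` contains the square roots of
infinitely many `D_j` and of their conjugates `D_j'`, and all these numbers are independent modulo squares.  So for all
`N` there are such fields `F` of degree `2^(2N + 1)`, Galois over `ℚ`, whose Galois group is the wreath product
of `(ℤ/2)^N` and `ℤ/2` (the dihedral group of order `8` for `N = 1`).

The proof.  The starting library of helper15 (files `Pool/Agent/K4H15/BW`) gives an infinite group `G` of quadratic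
characters of `K`, stable under conjugation, of conductors which are products of admissible primes, such that
`L(E ⊗ χ, 1) ≠ 0` for all `χ ∈ G`: this is a `2`-adic argument with the values at cusps of the primitive of the harmonic
differential of `f`, and `χ = χ_D` by the reciprocity law in `K`.  Here (files `Pool/Agent/Run7/h323/BT`) the
decomposition law in the finite layers `F` of `M = K(√D)` is proved: by Kummer theory and the theorem 90 of Hilbert `F` is
generated by the `√D` contained in `F`; the inertia groups, the decomposition groups, the residue degrees and the number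
of the places of `F` above `v` are computed for all `v`.  With the number of the points over the extensions of finite
fields the Euler factors of `L(E/F, s)` at the places above `v` are compared with those of the twists, and
`L(E/F, s) = ∏ L(E ⊗ χ_D, s)`, the product over the classes of the `D` with `√D ∈ F`.  The theorem of helper55 on
Selmer groups in extensions of `2`-power degree (`Pool.Agent.K4H55.CX.fin_up`) applies to all the `F` by this
decomposition law: `F/K` is ramified at admissible places only, and the places dividing `2(4a³ + 27b²)` split completely.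
-/

set_option autoImplicit false
set_option linter.unusedSectionVars false

open NumberField IsDedekindDomain Matrix WeierstrassCurve Filter Topology
open scoped TensorProduct

namespace Pool.Agent.Results.MP_1a91b9_nt.BianchiTowers

/-- `K` is an imaginary quadratic field, `σ` is one of its two embeddings in `ℂ`, and `δ` generates the
different of `K`: an `x ∈ K` is in `𝓞` if and only if `Tr(x y / δ) ∈ ℤ` for all `y ∈ 𝓞`. -/
structure IsFieldData (K : Type) [Field K] [NumberField K] (σ : K →+* ℂ) (δ : K) : Prop where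
  quadratic : Module.finrank ℚ K = 2
  imaginary : ∃ x, (starRingEnd ℂ) (σ x) ≠ σ x
  different : ∀ x : K, (∃ a : 𝓞 K, (a : K) = x) ↔
    ∀ y : 𝓞 K, ∃ m : ℤ, Algebra.trace ℚ K (x * y / δ) = m

/-- `h(y) = ∫_0^∞ exp(-1/v - y v) dv = 2 y^(-1/2) K₁(2 √y)`, with the Bessel function `K₁`. -/
noncomputable def bessel (y : ℝ) : ℝ := ∫ v in Set.Ioi (0 : ℝ), Real.exp (-(1 / v) - y * v)

/-- The additive character `e(z) = exp(2πi (z/δ + conj (z/δ)))` of `ℂ`, trivial on `𝓞`. -/
noncomputable def addChar (δ z : ℂ) : ℂ :=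
  Complex.exp (2 * Real.pi * Complex.I * (z / δ + (starRingEnd ℂ) (z / δ)))

/-- The denominator `|c z + d|² + |c|² t²` of the action of the matrix `(a, b; c, d)` on the hyperbolic
space `{(z, t) : z ∈ ℂ, t > 0}`. -/
noncomputable def den (c d z : ℂ) (t : ℝ) : ℝ := ‖c * z + d‖ ^ 2 + ‖c‖ ^ 2 * t ^ 2

/-- The first coordinate `((a z + b) conj (c z + d) + a conj(c) t²) / (|c z + d|² + |c|² t²)` of the image
of `(z, t)` under the matrix `(a, b; c, d)`. -/
noncomputable def actZ (a b c d z : ℂ) (t : ℝ) : ℂ :=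
  ((a * z + b) * (starRingEnd ℂ) (c * z + d) + a * (starRingEnd ℂ) c * (t : ℂ) ^ 2) /
    (den c d z t : ℂ)

/-- The second coordinate, for a matrix of determinant one; in general it is `|ad - bc|` times this. -/
noncomputable def actT (c d z : ℂ) (t : ℝ) : ℝ := t / den c d z t

section field
variable {K : Type} [Field K] [NumberField K]

/-- The function `Φ(z, t) = ∑_{x ∈ 𝓞} c((x)) t² h(N(x) (2πt/|δ|)²) e(x z)
  = (|δ|/π) ∑_{x ≠ 0} (c((x))/|x|) t K₁(4π|x|t/|δ|) e(x z)` on the hyperbolic space, with the coefficients `c`.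
Up to a constant factor it is the primitive, zero at the cusp `∞`, of the harmonic differential of the
form of weight two with the Fourier coefficients `c`: its derivative by `t` is
`-4 ∑_{x ≠ 0} c((x)) t K₀(4π|x|t/|δ|) e(x z)`. -/
noncomputable def primitive (σ : K →+* ℂ) (δ : K) (c : Ideal (𝓞 K) → ℂ) (z : ℂ) (t : ℝ) : ℂ :=
  ∑' x : 𝓞 K, c (Ideal.span {x}) * ((t ^ 2 * bessel (Ideal.absNorm (Ideal.span {x}) *
    (2 * Real.pi * t / ‖σ δ‖) ^ 2) : ℝ) : ℂ) * addChar (σ δ) (σ x * z)

/-- The numbers `c(I)` are the Hecke eigenvalues of a Bianchi newform `f` of weight two, level `(n)` and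
trivial character over `K`: they satisfy `c(𝓞) = 1`, the (trivial) bound `c(I) = O(N(I))`
and the Hecke relations `c(v I) = c(v) c(I)` for `v ∤ I`, `c(v² I) = c(v) c(v I) - N(v) c(I)` for the primes `v ∤ n`, and
`c(v I) = c(v) c(I)` for `v ∣ n`; the differential `dΦ` of the function `Φ` with the coefficients `c` is
invariant under `Γ₀(n)`, that is, `Φ(γ P) - Φ(P)` is a constant for every `γ ∈ Γ₀(n)`; and `dΦ` is an
eigenform, with the eigenvalue `±1`, of the Fricke involution `W = (0, -1; n, 0)`. -/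
structure IsNewform (σ : K →+* ℂ) (δ : K) (n : 𝓞 K) (c : Ideal (𝓞 K) → ℂ) : Prop where
  level : n ≠ 0
  zero : c ⊥ = 0
  one : c ⊤ = 1
  bound : ∃ C : ℝ, ∀ I, ‖c I‖ ≤ C * Ideal.absNorm I
  good : ∀ v : HeightOneSpectrum (𝓞 K), n ∉ v.asIdeal → ∀ I,
    (¬ v.asIdeal ∣ I → c (v.asIdeal * I) = c v.asIdeal * c I) ∧
    c (v.asIdeal * (v.asIdeal * I)) = c v.asIdeal * c (v.asIdeal * I) -
      Ideal.absNorm v.asIdeal * c I
  bad : ∀ v : HeightOneSpectrum (𝓞 K), n ∈ v.asIdeal → ∀ I,
    c (v.asIdeal * I) = c v.asIdeal * c I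
  invariant : ∃ κ : SpecialLinearGroup (Fin 2) (𝓞 K) → ℂ,
    ∀ γ : SpecialLinearGroup (Fin 2) (𝓞 K), n ∣ γ.1 1 0 → ∀ (z : ℂ) (t : ℝ), 0 < t →
      primitive σ δ c (actZ (σ (γ.1 0 0)) (σ (γ.1 0 1)) (σ (γ.1 1 0)) (σ (γ.1 1 1)) z t)
        (actT (σ (γ.1 1 0)) (σ (γ.1 1 1)) z t) = primitive σ δ c z t + κ γ
  fricke : ∃ w κ : ℂ, w * w = 1 ∧ ∀ (z : ℂ) (t : ℝ), 0 < t →
    primitive σ δ c (actZ 0 (-1) (σ n) 0 z t) (‖σ n‖ * actT (σ n) 0 z t) =
      -w * primitive σ δ c z t + κ

section selmer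
variable {L : Type} [Field L] [NumberField L] [Algebra K L]

/-- `L = K(θ)` is the cubic field of `E`: `θ³ + a θ + b = 0`, and every element of `L` is `u + v θ + w θ²` for
unique `u, v, w ∈ K`.  So `x³ + a x + b` is irreducible over `K`, that is, `E(K)[2] = 0`. -/
structure IsCubicField (a b : 𝓞 K) (θ : L) : Prop where
  root : θ ^ 3 + algebraMap K L a * θ + algebraMap K L b = 0
  basis : ∀ β : L, ∃! t : K × K × K,
    β = algebraMap K L t.1 + algebraMap K L t.2.1 * θ + algebraMap K L t.2.2 * θ ^ 2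

/-- The class of `α` in `(K_v ⊗ L)^×` modulo squares is in the group generated by the images of the points
`(x, y)`, `y ≠ 0`, of `E(K_v)` under the Kummer map `(x, y) ↦ x - θ`.  (This group is the image of `E(K_v)/2E(K_v)`, as
the map is a homomorphism and all classes contain points with `y ≠ 0`.) -/
def LocalCondition (a b : 𝓞 K) (θ : L) (v : HeightOneSpectrum (𝓞 K)) (α : L) : Prop :=
  ∃ s : List (v.adicCompletion K),
    (∀ x ∈ s, ∃ y : v.adicCompletion K, y ≠ 0 ∧
      y ^ 2 = x ^ 3 + algebraMap K (v.adicCompletion K) a * x +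
        algebraMap K (v.adicCompletion K) b) ∧
    IsSquare (((1 : v.adicCompletion K) ⊗ₜ[K] α) *
      (s.map fun x => x ⊗ₜ[K] (1 : L) - 1 ⊗ₜ[K] θ).prod)

/-- The `2`-Selmer group of `E/K` is trivial.  As `E(K)[2] = 0` and `K` has no real places, it is the group of the
classes of `α ∈ L^×` modulo squares such that the norm of `α` is a square, `w(α)` is even for all places
`w ∤ 2(4a³ + 27b²)` of `L`, and `α` satisfies the local conditions at the places `v ∣ 2(4a³ + 27b²)` of `K`. -/
def TrivialSelmer (a b : 𝓞 K) (θ : L) : Prop :=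
  ∀ α : L, α ≠ 0 → IsSquare (Algebra.norm K α) →
    (∀ w : HeightOneSpectrum (𝓞 L), algebraMap (𝓞 K) (𝓞 L) (2 * (4 * a ^ 3 + 27 * b ^ 2)) ∉
      w.asIdeal → IsSquare (w.valuation L α)) →
    (∀ v : HeightOneSpectrum (𝓞 K), 2 * (4 * a ^ 3 + 27 * b ^ 2) ∈ v.asIdeal →
      LocalCondition a b θ v α) → IsSquare α

end selmer

/-- The number of the affine points of `y² = x³ + a x + b` over the residue field of the place `v`. -/
noncomputable def points (a b : 𝓞 K) (v : HeightOneSpectrum (𝓞 K)) : ℕ :=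
  Nat.card {x : (𝓞 K ⧸ v.asIdeal) × (𝓞 K ⧸ v.asIdeal) //
    x.2 ^ 2 = x.1 ^ 3 + (Ideal.Quotient.mk v.asIdeal a) * x.1 + (Ideal.Quotient.mk v.asIdeal b)}

/-- `f` is the newform of `E : y² = x³ + a x + b`: for `v ∤ 2(4a³ + 27b²)` (so that `E` has good reduction at `v`)
the level is prime to `v` and `c(v) = N(v) + 1 - #E(𝓞/v)`. -/
def IsNewformOf (a b n : 𝓞 K) (c : Ideal (𝓞 K) → ℂ) : Prop :=
  ∀ v : HeightOneSpectrum (𝓞 K), 2 * (4 * a ^ 3 + 27 * b ^ 2) ∉ v.asIdeal →
    n ∉ v.asIdeal ∧ c v.asIdeal = (Ideal.absNorm v.asIdeal : ℂ) - points a b v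

/-- The prime number `q` is odd and splits in `K`, and the places `v` of `K` above `q` do not divide
`2(4a³ + 27b²)` and `n`, and `x³ + a x + b` has no root modulo `v`. -/
structure AdmissiblePrime (a b n : 𝓞 K) (q : ℕ) : Prop where
  prime : q.Prime
  odd : q ≠ 2
  splits : ∃ v w : HeightOneSpectrum (𝓞 K), v ≠ w ∧ (q : 𝓞 K) ∈ v.asIdeal ∧ (q : 𝓞 K) ∈ w.asIdeal
  good : ∀ v : HeightOneSpectrum (𝓞 K), (q : 𝓞 K) ∈ v.asIdeal →
    2 * (4 * a ^ 3 + 27 * b ^ 2) ∉ v.asIdeal ∧ n ∉ v.asIdeal
  noroot : ∀ v : HeightOneSpectrum (𝓞 K), (q : 𝓞 K) ∈ v.asIdeal →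
    ∀ x : 𝓞 K, x ^ 3 + a * x + b ∉ v.asIdeal

/-- The field `M ⊃ K` is generated over `K` by the square roots of squarefree integers `D ≡ 1 (mod m)` of `K` whose
prime divisors are above the prime numbers in `Q`; the places `v` of `K` dividing `2(4a³ + 27b²) m` split completely in
`M` (there is an embedding of `M` in `K_v`); `M` is a Galois extension of `ℚ`, it has infinite degree, its Galois
group over `ℚ` is not commutative; and there are infinitely many integers `D_j` of `K`, with the complex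
conjugates `D_j'`, whose square roots are in `M`, and such that all the `D_j` and `D_j'` are independent modulo
squares in `K`. -/
structure IsTower (σ : K →+* ℂ) (a b : 𝓞 K) (Q : Set ℕ) (m : ℕ)
    (M : IntermediateField K (AlgebraicClosure K)) : Prop where
  generated : ∃ 𝒟 : Set (𝓞 K),
    M = IntermediateField.adjoin K {x | ∃ D ∈ 𝒟, x ^ 2 = algebraMap K (AlgebraicClosure K) D} ∧
    ∀ D ∈ 𝒟, Squarefree D ∧ (m : 𝓞 K) ∣ D - 1 ∧
      ∀ v : HeightOneSpectrum (𝓞 K), D ∈ v.asIdeal → ∃ q ∈ Q, (q : 𝓞 K) ∈ v.asIdeal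
  split : ∀ v : HeightOneSpectrum (𝓞 K), 2 * (4 * a ^ 3 + 27 * b ^ 2) * m ∈ v.asIdeal →
    Nonempty (M →ₐ[K] v.adicCompletion K)
  galois : IsGalois ℚ M
  infinite : ¬ FiniteDimensional K M
  noncommutative : ∃ s t : M ≃ₐ[ℚ] M, s * t ≠ t * s
  independent : ∃ D D' : ℕ → 𝓞 K, (∀ j, σ (D' j) = (starRingEnd ℂ) (σ (D j))) ∧
    (∀ j, (∃ x ∈ M, x ^ 2 = algebraMap K (AlgebraicClosure K) (D j)) ∧
      ∃ x ∈ M, x ^ 2 = algebraMap K (AlgebraicClosure K) (D' j)) ∧
    ∀ S S' : Finset ℕ, S.Nonempty ∨ S'.Nonempty →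
      ¬ IsSquare ((∏ j ∈ S, (D j : K)) * ∏ j ∈ S', (D' j : K))

section extension

variable (F : Type) [Field F] [NumberField F] [Algebra K F]

open Classical in
/-- The Euler factor of `L(E/F, s)` at the place `u` of `F`: for `u ∤ 2(4a³ + 27b²)` it is
`(1 - a_u N(u)^(-s) + N(u)^(1 - 2s))⁻¹` with `a_u = N(u) + 1 - #E(𝓞_F/u)`.  For `u ∣ 2(4a³ + 27b²)` it is
`(1 - c(v) N(u)^(-s) + N(u)^(1 - 2s))⁻¹`, where `v` is the place of `K` below `u`, without the last term if `u ∣ n`.
(The places dividing `2(4a³ + 27b²)` will split completely in `F`, so that `F_u = K_v`.) -/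
noncomputable def factor (a b n : 𝓞 K) (c : Ideal (𝓞 K) → ℂ) (s : ℂ) (u : HeightOneSpectrum (𝓞 F)) :
    ℂ :=
  if algebraMap (𝓞 K) (𝓞 F) (2 * (4 * a ^ 3 + 27 * b ^ 2)) ∈ u.asIdeal then
    (1 - c (u.asIdeal.comap (algebraMap (𝓞 K) (𝓞 F))) * (Ideal.absNorm u.asIdeal : ℂ) ^ (-s) +
      (if algebraMap (𝓞 K) (𝓞 F) n ∈ u.asIdeal then 0 else
        (Ideal.absNorm u.asIdeal : ℂ) ^ (1 - 2 * s)))⁻¹
  else
    (1 - ((Ideal.absNorm u.asIdeal : ℂ) -
        points (algebraMap (𝓞 K) (𝓞 F) a) (algebraMap (𝓞 K) (𝓞 F) b) u) *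
      (Ideal.absNorm u.asIdeal : ℂ) ^ (-s) + (Ideal.absNorm u.asIdeal : ℂ) ^ (1 - 2 * s))⁻¹

/-- The entire function `Λ` is `L(E/F, s)`: for `Re s > 2` it is the product of the Euler factors at all the finite
places of `F`. -/
structure IsLFunction (a b n : 𝓞 K) (c : Ideal (𝓞 K) → ℂ) (Λ : ℂ → ℂ) : Prop where
  entire : Differentiable ℂ Λ
  product : ∀ s : ℂ, 2 < s.re → HasProd (factor F a b n c s) (Λ s)

/-- The curve `E : y² = x³ + a x + b` over `F`. -/
def curve (a b : 𝓞 K) : WeierstrassCurve F := ⟨0, 0, 0, algebraMap K F a, algebraMap K F b⟩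

/-- The group `E(F)`. -/
abbrev Points (a b : 𝓞 K) : Type := (curve F a b).toAffine.Point

open Classical in
/-- The rank conjecture holds for `E/F`, and both sides are zero: `L(E/F, s)` is entire, its order of vanishing at
`s = 1` is the rank of `E(F)`, and the rank is `0`. -/
def RankConjectureZero (a b n : 𝓞 K) (c : Ideal (𝓞 K) → ℂ) : Prop :=
  ∃ Λ : ℂ → ℂ, IsLFunction F a b n c Λ ∧
    analyticOrderAt Λ 1 = ((Module.finrank ℤ (Points F a b) : ℕ) : ℕ∞) ∧
    Module.finrank ℤ (Points F a b) = 0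

/-- The 2-primary part of the Tate-Shafarevich group of `E` over `F`. -/
def Sha2 (a b : 𝓞 K) : Set (Pool.Agent.TH841.NF.D.Sha (curve F a b)) := {x | ∃ k : ℕ, 2 ^ k • x = 0}

theorem RankConjectureZero.of {a b n : 𝓞 K} {c : Ideal (𝓞 K) → ℂ} {Λ : ℂ → ℂ}
    (h : IsLFunction F a b n c Λ) (h1 : Λ 1 ≠ 0) (hfin : Finite (Points F a b)) :
    RankConjectureZero F a b n c := by
  classical
  have h0 : Module.finrank ℤ (Points F a b) = 0 := by
    apply Module.IsTorsion.finrank_eq_zero
    intro P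
    refine ⟨⟨(Nat.card (Points F a b) : ℤ), ?_⟩, ?_⟩
    · rw [mem_nonZeroDivisors_iff_ne_zero]
      exact_mod_cast Nat.card_pos.ne'
    · show (Nat.card (Points F a b) : ℤ) • P = 0
      rw [natCast_zsmul]
      exact card_nsmul_eq_zero'
  refine ⟨Λ, h, ?_, h0⟩
  rw [h0]
  exact analyticOrderAt_eq_zero.2 (Or.inr h1)

end extension

end field

open Classical in
/-- Let `K` be an imaginary quadratic field of class number one and `E : y² = x³ + a x + b` an elliptic curve over `K`
with the Bianchi newform `f`, and suppose that `E(K)[2] = 0`, the `2`-Selmer group of `E/K` is trivial, and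
`L(E/K, 1) ≠ 0`.  Then there are infinitely many admissible primes; and for every infinite set `Q` of admissible primes
and every `m ≠ 0` there is an infinite extension `M` of `K`, generated by the square roots of squarefree integers
`D ≡ 1 (mod m)` of `K` whose prime divisors are above `Q`, Galois over `ℚ` with a Galois group which is not
commutative, such that for ALL the number fields `F` with `K ⊆ F ⊂ M`: the rank conjecture holds for `E/F`, with both
sides zero; the group `E(F)` is finite of odd order; and `Ш(E/F)[2^∞] = 0`. -/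
theorem result (K : Type) [Field K] [NumberField K] [IsPrincipalIdealRing (𝓞 K)] (σ : K →+* ℂ)
    (δ : K) (hK : IsFieldData K σ δ) (a b : 𝓞 K) (hΔ : 4 * a ^ 3 + 27 * b ^ 2 ≠ 0) (n : 𝓞 K)
    (c : Ideal (𝓞 K) → ℂ) (hf : IsNewform σ δ n c) (hE : IsNewformOf a b n c)
    (L : Type) [Field L] [NumberField L] [Algebra K L] (θ : L)
    (hθ : IsCubicField a b θ) (hS : TrivialSelmer a b θ)
    (h0 : ∃ Λ : ℂ → ℂ, IsLFunction K a b n c Λ ∧ Λ 1 ≠ 0) :
    {q : ℕ | AdmissiblePrime a b n q}.Infinite ∧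
    ∀ Q : Set ℕ, Q.Infinite → (∀ q ∈ Q, AdmissiblePrime a b n q) → ∀ m : ℕ, m ≠ 0 →
      ∃ M : IntermediateField K (AlgebraicClosure K), IsTower σ a b Q m M ∧
        ∀ (F : IntermediateField K (AlgebraicClosure K)) [NumberField F], F ≤ M →
          RankConjectureZero F a b n c ∧ Finite (Points F a b) ∧ Odd (Nat.card (Points F a b)) ∧
            Sha2 F a b = {0} := by
  have h : K4H55.BI.IQ K σ δ := ⟨hK.quadratic, hK.imaginary, inferInstance, hK.different⟩
  have hf' : K4H55.BI.BF σ δ n c := ⟨hf.level, hf.zero, hf.one, hf.bound, hf.good, hf.bad,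
    hf.invariant, hf.fricke⟩
  have hcub : K4H55.BD.Cub K θ := by
    refine ⟨fun p q r h0 => ?_, fun β => ?_⟩
    · obtain ⟨t, ht, hu⟩ := hθ.basis 0
      have h1 := hu (p, q, r) h0.symm
      have h2 := hu (0, 0, 0) (by simp)
      have h3 := h1.trans h2.symm
      simp only [Prod.mk.injEq] at h3
      exact h3
    · obtain ⟨t, ht, -⟩ := hθ.basis β
      exact ⟨t.1, t.2.1, t.2.2, ht⟩
  have hc : ∀ v : HeightOneSpectrum (𝓞 K), 2 * (4 * a ^ 3 + 27 * b ^ 2) ∉ v.asIdeal →
      n ∉ v.asIdeal ∧ c v.asIdeal = (Ideal.absNorm v.asIdeal : ℂ) - Run7.h323.BT.pt a b v := hE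
  -- the admissible primes
  have hadm : ∀ q : ℕ, q ∈ K4H55.BD.QE h a b n ↔ AdmissiblePrime a b n q := by
    intro q
    constructor
    · rintro ⟨h1, h2⟩
      obtain ⟨v, hv⟩ := K4H55.BD.exists_over h h1.pr
      exact ⟨h1.pr, h1.odd, ⟨K4H55.BD.tv h v, v, K4H55.BD.tv_ne h h1 hv, K4H55.BD.mem_tv_nat h hv, hv⟩,
        fun v hv => ⟨(h2 v hv).1, (h2 v hv).2.1⟩, fun v hv => (h2 v hv).2.2⟩
    · intro h1
      obtain ⟨v, w, hvw, hv, hw⟩ := h1.splits
      have hdeg : ∀ v : HeightOneSpectrum (𝓞 K), (q : 𝓞 K) ∈ v.asIdeal →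
          Ideal.absNorm v.asIdeal = q := by
        intro v' hv'
        obtain ⟨p, hp, hpv, hN⟩ := K4H55.BD.nv_cases h v'
        obtain rfl := K4H55.BD.uniq_over hp h1.prime hpv hv'
        rcases hN with hN | hN
        · exact hN
        · exact absurd ((K4H15.BZ.inert_all h hp hpv hN hv).trans
            (K4H15.BZ.inert_all h hp hpv hN hw).symm) hvw
      refine ⟨⟨h1.prime, h1.odd, hdeg, fun v' hv' => ?_⟩, fun v' hv' =>
        ⟨(h1.good v' hv').1, (h1.good v' hv').2, h1.noroot v' hv'⟩⟩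
      have h2 : K4H55.BD.tv h v' ≠ v' := by
        intro h3
        have h4 : ∀ u : HeightOneSpectrum (𝓞 K), (q : 𝓞 K) ∈ u.asIdeal → u = v' := by
          intro u hu
          rcases K4H15.BZ.split_all h (hdeg v' hv') hu with h5 | h5
          · exact h5
          · rw [h5, h3]
        exact hvw ((h4 v hv).trans (h4 w hw).symm)
      have h3 : ¬ v'.asIdeal ≤ (K4H55.BD.tv h v').asIdeal := by
        intro h4
        apply h2
        exact HeightOneSpectrum.ext (v'.isMaximal.eq_of_le (K4H55.BD.tv h v').isPrime.ne_top h4).symm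
      obtain ⟨x, hx, hx'⟩ := Set.not_subset.1 h3
      refine ⟨x, fun h4 => hx' ?_⟩
      show K4H55.BD.tau h x ∈ v'.asIdeal
      have h5 := v'.asIdeal.sub_mem hx h4
      rwa [sub_sub_cancel] at h5
  -- the central value
  have hNV : K4H55.BI.NVT n c ∅ := by
    obtain ⟨Λ, h1, h2⟩ := h0
    refine ⟨Λ, h1.entire, fun s hs => ?_, h2⟩
    have e : ∀ x : 𝓞 K, @algebraMap (𝓞 K) (𝓞 K) _ _ (inst_ringOfIntegersAlgebra K K) x = x :=
      fun x => rfl
    have h3 : factor K a b n c s = K4H55.BI.efac n c ∅ s := by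
      funext v
      have hcm : v.asIdeal.comap (@algebraMap (𝓞 K) (𝓞 K) _ _ (inst_ringOfIntegersAlgebra K K)) =
          v.asIdeal := by
        ext x
        rw [Ideal.mem_comap, e]
      have hχ : K4H55.BI.chiT (∅ : Finset (HeightOneSpectrum (𝓞 K))) (K4H55.BI.gen v) = 1 := by
        unfold K4H55.BI.chiT
        exact Finset.prod_empty
      unfold factor K4H55.BI.efac
      rw [hcm, e, e, e, e, hχ, mul_one, one_pow, one_mul]
      by_cases h4 : 2 * (4 * a ^ 3 + 27 * b ^ 2) ∈ v.asIdeal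
      · rw [if_pos h4]
      · rw [if_neg h4, if_neg (hE v h4).1, (hE v h4).2]
    rw [← h3]
    exact h1.product s hs
  refine ⟨?_, fun Q hQi hQ m hm => ?_⟩
  · have h1 := K4H15.BW.QE_inf h hΔ hf.level (a := a) (b := b)
      (fun x hx => K4H55.CX.cub_noroot hcub hθ.root x hx)
    refine h1.mono fun q hq => (hadm q).1 hq
  obtain ⟨G, _, D, T, hd, hcj, hD, y, hy⟩ := Run7.h323.BT.main2 h hΔ hf' hc hNV hm
    (fun q hq => (hadm q).2 (hQ q hq)) hQi
  have ht : Run7.h323.BT.TD a b n c D T := ⟨fun g v hv => (hD g).2.2.1 v (v.asIdeal.mul_mem_right _ hv),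
    fun g v hv => ((hD g).2.2.2.1 v hv).1, fun g => (hD g).2.2.2.2.1,
    fun g => (hD g).2.2.2.2.2.1, fun g => (hD g).2.2.2.2.2.2.1, fun g => (hD g).2.2.2.2.2.2.2.2⟩
  -- the tower
  set 𝒟 : Set (𝓞 K) := Set.range D with h𝒟
  have hM : Run7.h323.BT.twr D = K4H15.BW.tower 𝒟 := by
    unfold Run7.h323.BT.twr K4H15.BW.tower
    congr 1
    ext x
    constructor
    · rintro ⟨g, hg⟩
      exact ⟨D g, ⟨g, rfl⟩, hg⟩
    · rintro ⟨_, ⟨g, rfl⟩, hg⟩
      exact ⟨g, hg⟩
  have hcj' : ∀ x ∈ 𝒟, K4H55.BD.tau h x ∈ 𝒟 := by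
    rintro _ ⟨g, rfl⟩
    obtain ⟨g', hg'⟩ := hcj g
    exact ⟨g', hg'.symm⟩
  refine ⟨K4H15.BW.tower 𝒟, ⟨⟨𝒟, rfl, ?_⟩, ?_, K4H15.BW.tower_galois h hcj', ?_, ?_, ?_⟩, ?_⟩
  · rintro _ ⟨g, rfl⟩
    exact ⟨(hD g).1, (hD g).2.1, fun v hv => ((hD g).2.2.2.1 v hv).2⟩
  · intro v hv
    refine IntermediateField.nonempty_algHom_adjoin_of_splits ?_
    rintro x ⟨_, ⟨g, rfl⟩, hg⟩
    have hint : IsIntegral K x := by
      refine IsIntegral.of_pow two_pos ?_
      rw [hg]
      exact isIntegral_algebraMap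
    refine ⟨hint, ?_⟩
    have h1 : minpoly K x ∣ Polynomial.X ^ 2 - Polynomial.C (D g : K) := by
      apply minpoly.dvd
      simp only [map_sub, map_pow, Polynomial.aeval_X, Polynomial.aeval_C]
      rw [hg, sub_self]
    obtain ⟨z, hz⟩ := (hD g).2.2.1 v hv
    have h2 : ((Polynomial.X ^ 2 - Polynomial.C (D g : K)).map
        (algebraMap K (v.adicCompletion K))).Splits := by
      have e : (Polynomial.X ^ 2 - Polynomial.C (D g : K)).map (algebraMap K (v.adicCompletion K)) =
          (Polynomial.X - Polynomial.C z) * (Polynomial.X - Polynomial.C (-z)) := by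
        rw [Polynomial.map_sub, Polynomial.map_pow, Polynomial.map_X, Polynomial.map_C, hz,
          Polynomial.C_mul, Polynomial.C_neg]
        ring
      rw [e]
      exact (Polynomial.Splits.X_sub_C z).mul (Polynomial.Splits.X_sub_C (-z))
    refine h2.of_dvd ?_ (Polynomial.map_dvd _ h1)
    intro h3
    have h4 := congrArg Polynomial.natDegree h3
    rw [Polynomial.natDegree_map, Polynomial.natDegree_X_pow_sub_C, Polynomial.natDegree_zero] at h4
    omega
  · refine K4H15.BW.tower_inf h hcj' (D := fun j => D (y j)) (fun j => ⟨y j, rfl⟩) fun i j hij => ?_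
    have h1 := hy {i, j} ∅ (Or.inl ⟨i, by simp⟩)
    rw [Finset.prod_pair hij, Finset.prod_empty, mul_one] at h1
    exact h1
  · refine K4H15.BW.tower_noncomm h hcj' (D := D (y 0)) ⟨y 0, rfl⟩ ?_ ?_
    · have h1 := hy {0} ∅ (Or.inl ⟨0, by simp⟩)
      rw [Finset.prod_singleton, Finset.prod_empty, mul_one] at h1
      exact h1
    · have h1 := hy {0} {0} (Or.inl ⟨0, by simp⟩)
      rw [Finset.prod_singleton, Finset.prod_singleton] at h1
      exact h1
  · refine ⟨fun j => D (y j), fun j => K4H55.BD.tau h (D (y j)), fun j => K4H55.BD.sg_tau h _,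
      fun j => ⟨?_, ?_⟩, hy⟩
    · obtain ⟨x, hx⟩ := IsAlgClosed.exists_pow_nat_eq
        (algebraMap K (AlgebraicClosure K) (D (y j) : K)) two_pos
      exact ⟨x, K4H15.BW.root_mem (𝒟 := 𝒟) ⟨y j, rfl⟩ hx, hx⟩
    · obtain ⟨x, hx⟩ := IsAlgClosed.exists_pow_nat_eq
        (algebraMap K (AlgebraicClosure K) (K4H55.BD.tau h (D (y j)) : K)) two_pos
      exact ⟨x, K4H15.BW.root_mem (hcj' _ ⟨y j, rfl⟩) hx, hx⟩
  · intro F _ hF
    rw [← hM] at hF
    have hfd : FiniteDimensional K F := Module.Finite.of_restrictScalars_finite ℚ K F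
    obtain ⟨Λ, g1, g2, g3⟩ := Run7.h323.BT.layer_L hd ht hΔ hc F hF
    obtain ⟨⟨f1, f2⟩, f3, -⟩ := Run7.h323.BT.layer_fin hd ht hΔ hcub hθ.root hS F hF
    have hL : IsLFunction F a b n c Λ := ⟨g1, fun s hs => g2 s hs⟩
    refine ⟨RankConjectureZero.of F hL g3 f1, f1, f2, ?_⟩
    ext x
    constructor
    · rintro ⟨k, hk⟩
      exact f3 k x hk
    · rintro rfl
      exact ⟨0, nsmul_zero _⟩

end Pool.Agent.Results.MP_1a91b9_nt.BianchiTowers
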